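import Mathlib
import Pool.Agent.Helper32.OIP.Goals

/-!
# Packet OIP-MA2

Infinite product measures: pairs, gluing, updates.
-/

set_option autoImplicit false

namespace Pool.Agent.Helper13.OIP

open MeasureTheory Pool.Agent.Helper32.OIP Pool.Agent.Helper58.Orb

section

variable {A E E' : Type} [MeasurableSpace E] [MeasurableSpace E']

theorem pm_prob (ν : Measure E) [IsProbabilityMeasure ν] : IsProbabilityMeasure (pm A ν) := by
  unfold pm
  infer_instance

/-- the pairing map -/
theorem measurable_pairing :
    Measurable (fun (p : (A → E) × (A → E')) (a : A) => (p.1 a, p.2 a)) := by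
  apply measurable_pi_lambda
  intro a
  exact ((measurable_pi_apply a).comp measurable_fst).prodMk
    ((measurable_pi_apply a).comp measurable_snd)

theorem measurable_unpairing :
    Measurable (fun (z : A → E × E') => ((fun a => (z a).1), (fun a => (z a).2))) := by
  apply Measurable.prodMk
  · apply measurable_pi_lambda
    intro a
    exact measurable_fst.comp (measurable_pi_apply a)
  · apply measurable_pi_lambda
    intro a
    exact measurable_snd.comp (measurable_pi_apply a)

theorem mp_restrict (ν : Measure E) [IsProbabilityMeasure ν] (s : Finset A) :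
    MeasurePreserving (s.restrict : (A → E) → (s → E)) (pm A ν) (Measure.pi fun _ : s => ν) :=
  ⟨by fun_prop, Measure.infinitePi_map_restrict _⟩

/-- first claim -/
theorem mp_pairing (ν : Measure E) (ν' : Measure E') [IsProbabilityMeasure ν]
    [IsProbabilityMeasure ν'] :
    MeasurePreserving (fun (p : (A → E) × (A → E')) (a : A) => (p.1 a, p.2 a))
      ((pm A ν).prod (pm A ν')) (pm A (ν.prod ν')) := by
  refine ⟨measurable_pairing, ?_⟩
  refine Measure.eq_infinitePi _ fun s t ht => ?_
  rw [Measure.map_apply measurable_pairing
    (MeasurableSet.pi s.countable_toSet fun i _ => ht i)]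
  have := pm_prob (A := A) ν
  have := pm_prob (A := A) ν'
  have hmp := (mp_restrict ν s).prod (mp_restrict ν' s)
  have heq := (measurePreserving_arrowProdEquivProdArrow E E' s (fun _ => ν) (fun _ => ν')).symm
  have hset : (fun (p : (A → E) × (A → E')) (a : A) => (p.1 a, p.2 a)) ⁻¹' (Set.pi s t) =
      (Prod.map (s.restrict : (A → E) → (s → E)) (s.restrict : (A → E') → (s → E'))) ⁻¹'
        ((MeasurableEquiv.arrowProdEquivProdArrow E E' s).symm ⁻¹'
          (Set.pi Set.univ (fun i : s => t i))) := by
    ext p
    constructor
    · intro h i _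
      exact h i i.2
    · intro h i hi
      exact h ⟨i, hi⟩ (Set.mem_univ _)
  have hm : MeasurableSet (Set.pi Set.univ (fun i : s => t i)) :=
    MeasurableSet.univ_pi (fun i => ht i)
  rw [hset, hmp.measure_preimage ((MeasurableEquiv.measurable _) hm).nullMeasurableSet,
    heq.measure_preimage hm.nullMeasurableSet, Measure.pi_pi]
  exact Finset.prod_coe_sort s (fun i => (ν.prod ν') (t i))

/-- second claim -/
theorem mp_unpairing (ν : Measure E) (ν' : Measure E') [IsProbabilityMeasure ν]
    [IsProbabilityMeasure ν'] :
    MeasurePreserving (fun (z : A → E × E') => ((fun a => (z a).1), (fun a => (z a).2)))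
      (pm A (ν.prod ν')) ((pm A ν).prod (pm A ν')) := by
  refine ⟨measurable_unpairing, ?_⟩
  rw [← (mp_pairing (A := A) ν ν').map_eq, Measure.map_map measurable_unpairing measurable_pairing]
  exact Measure.map_id

/-- third claim -/
theorem mp_glue (ν : Measure E) [IsProbabilityMeasure ν] (T : Set A) :
    MeasurePreserving (fun (p : (A → E) × (A → E)) => glue T p.1 p.2)
      ((pm A ν).prod (pm A ν)) (pm A ν) := by
  classical
  have h1 : MeasurePreserving (fun (z : A → E × E) (a : A) =>
      (if a ∈ T then (Prod.fst : E × E → E) else Prod.snd) (z a))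
      (pm A (ν.prod ν)) (pm A ν) := by
    have hf : ∀ a : A, Measurable (if a ∈ T then (Prod.fst : E × E → E) else Prod.snd) := by
      intro a
      split_ifs
      · exact measurable_fst
      · exact measurable_snd
    refine ⟨?_, ?_⟩
    · apply measurable_pi_lambda
      intro a
      exact (hf a).comp (measurable_pi_apply a)
    · have h2 := Measure.infinitePi_map_pi (fun _ : A => ν.prod ν) hf
      unfold pm
      rw [h2]
      congr 1
      funext a
      split_ifs
      · exact measurePreserving_fst.map_eq
      · exact measurePreserving_snd.map_eq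
  have h3 := h1.comp (mp_pairing (A := A) ν ν)
  have h4 : (fun (p : (A → E) × (A → E)) => glue T p.1 p.2) =
      (fun (z : A → E × E) (a : A) =>
      (if a ∈ T then (Prod.fst : E × E → E) else Prod.snd) (z a)) ∘
      (fun (p : (A → E) × (A → E)) (a : A) => (p.1 a, p.2 a)) := by
    funext p a
    simp only [glue, Function.comp]
    by_cases h : a ∈ T
    · simp only [h, if_true]
    · simp only [h, if_false]
  rw [h4]
  exact h3

/-- fourth claim -/
theorem mp_update [DecidableEq A] (ν : Measure E) [IsProbabilityMeasure ν] (j : A) :
    MeasurePreserving (fun (p : (A → E) × E) => Function.update p.1 j p.2)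
      ((pm A ν).prod ν) (pm A ν) := by
  have hm : Measurable (fun (p : (A → E) × E) => Function.update p.1 j p.2) := by
    apply measurable_pi_lambda
    intro a
    by_cases h : a = j
    · subst h
      simp only [Function.update_self]
      exact measurable_snd
    · simp only [Function.update_of_ne h]
      exact (measurable_pi_apply a).comp measurable_fst
  refine ⟨hm, ?_⟩
  have := pm_prob (A := A) ν
  have hev : MeasurePreserving (Function.eval j) (pm A ν) ν :=
    measurePreserving_eval_infinitePi (fun _ : A => ν) j
  have hp : MeasurePreserving (Prod.map (id : (A → E) → (A → E)) (Function.eval j : (A → E) → E))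
      ((pm A ν).prod (pm A ν)) ((pm A ν).prod ν) :=
    (MeasurePreserving.id (pm A ν)).prod hev
  rw [← hp.map_eq, Measure.map_map hm hp.measurable]
  have h4 : (fun (p : (A → E) × E) => Function.update p.1 j p.2) ∘
      (Prod.map (id : (A → E) → (A → E)) (Function.eval j : (A → E) → E)) =
      (fun (p : (A → E) × (A → E)) => glue ({j}ᶜ : Set A) p.1 p.2) := by
    funext p a
    simp only [glue, Function.comp, Prod.map]
    by_cases h : a = j
    · subst h
      simp
    · simp [h]
  rw [h4]
  exact (mp_glue ν _).map_eq

end

/-- the packet -/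
theorem ma2 : GoalMA2 := by
  refine ⟨?_, ?_, ?_, ?_⟩
  · intro A E E' _ _ ν ν' _ _
    exact mp_pairing ν ν'
  · intro A E E' _ _ ν ν' _ _
    exact mp_unpairing ν ν'
  · intro A E _ ν _ T
    exact mp_glue ν T
  · intro A E _ _ ν _ j
    exact mp_update ν j

end Pool.Agent.Helper13.OIP
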